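import Pool.Agent.Lib.MP_3efbeb_nt.Odd.All

/-!
# MP_81c197_nt: three multipliers

`a`, `b` even, without prime factors other than `2` and `3`, `3 ∣ a b`. For rough `c`, `c + a` and rough
`M`, `L`, `M₁ = L + b M` with `c L = 1 + a b M`:
`c L = (a b) M + 1`, `(c + a) L = a M₁ + 1`, `c M₁ = b ((c + a) M) + 1`,
and the product of the three signs `λ(n) λ(m)` is `1`.
-/

set_option autoImplicit false

namespace Pool.Agent.Lib.MP81c197

open Finset
open Pool.Agent.Lib.MP3efbeb.Odd

lemma lam_or (n : ℕ) : lam n = 1 ∨ lam n = -1 := neg_one_pow_eq_or ℤ _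

lemma lam_sq (n : ℕ) : lam n * lam n = 1 := by
  rcases lam_or n with h | h <;> rw [h] <;> norm_num

lemma lam_mul {m n : ℕ} (hm : m ≠ 0) (hn : n ≠ 0) : lam (m * n) = lam m * lam n := by
  unfold lam
  rw [(Nat.perm_primeFactorsList_mul hm hn).length_eq, List.length_append, pow_add]

lemma lam_eq_iff (m n : ℕ) : lam n * lam m = 1 ↔
    n.primeFactorsList.length % 2 = m.primeFactorsList.length % 2 := by
  unfold lam
  rw [← pow_add]
  constructor
  · intro h
    have h1 : Even (n.primeFactorsList.length + m.primeFactorsList.length) := by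
      by_contra h2
      rw [Nat.not_even_iff_odd] at h2
      rw [h2.neg_one_pow] at h
      norm_num at h
    obtain ⟨k, hk⟩ := h1
    omega
  · intro h
    have h1 : Even (n.primeFactorsList.length + m.primeFactorsList.length) := by
      rw [Nat.even_iff]
      omega
    exact h1.neg_one_pow

lemma rough_mul {q m n : ℕ} (hm : Rough q m) (hn : Rough q n) : Rough q (m * n) := by
  intro p hp hd
  rcases (Nat.Prime.dvd_mul hp).1 hd with h | h
  · exact hm p hp h
  · exact hn p hp h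

/-- one of the three signs is `1` -/
lemma sign3 {c d L M N : ℕ} (hc : c ≠ 0) (hd : d ≠ 0) (hL : L ≠ 0) (hM : M ≠ 0) (hN : N ≠ 0) :
    lam (c * L) * lam M = 1 ∨ lam (d * L) * lam N = 1 ∨ lam (c * N) * lam (d * M) = 1 := by
  rw [lam_mul hc hL, lam_mul hd hL, lam_mul hc hN, lam_mul hd hM]
  rcases lam_or c with h1 | h1 <;> rcases lam_or d with h2 | h2 <;> rcases lam_or L with h3 | h3 <;>
    rcases lam_or M with h4 | h4 <;> rcases lam_or N with h5 | h5 <;>
    rw [h1, h2, h3, h4, h5] <;> norm_num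

/-! ### choice of residues modulo `30` -/

lemma res_c : ∀ a < 30, a % 2 = 0 → ∃ c < 30, c % 2 ≠ 0 ∧ c % 3 ≠ 0 ∧ c % 5 ≠ 0 ∧
    (c + a) % 2 ≠ 0 ∧ (c + a) % 3 ≠ 0 ∧ (c + a) % 5 ≠ 0 := by decide

lemma res3 (a : ℕ) (ha : a < 3) (b : ℕ) (hb : b < 3) (c : ℕ) (hc : c < 3)
    (h : a * b % 3 = 0 ∧ c % 3 ≠ 0 ∧ (c + a) % 3 ≠ 0) :
    ∃ e < 3, e % 3 ≠ 0 ∧ (1 + a * b * e) % 3 ≠ 0 ∧ (1 + b * (a + c) * e) % 3 ≠ 0 := by
  interval_cases a <;> interval_cases b <;> interval_cases c <;> revert h <;> decide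

lemma res5 : ∀ a < 5, ∀ b < 5, ∀ c < 5,
    ∃ e < 5, e % 5 ≠ 0 ∧ (1 + a * b * e) % 5 ≠ 0 ∧ (1 + b * (a + c) * e) % 5 ≠ 0 := by decide

lemma res30 : ∀ e3 < 3, ∀ e5 < 5, ∃ e < 30, e % 2 = 1 ∧ e % 3 = e3 ∧ e % 5 = e5 := by decide

lemma p235 {p : ℕ} (hp : p.Prime) (h : p ≤ 6) : p = 2 ∨ p = 3 ∨ p = 5 := by
  interval_cases p <;> simp at hp ⊢ <;> revert hp <;> norm_num

/-- existence of the residue of `M` modulo `30` -/
lemma exists_e (a b c : ℕ) (ha : 2 ∣ a) (hb : 2 ∣ b) (h3 : 3 ∣ a * b) (hc3 : ¬ 3 ∣ c)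
    (hca3 : ¬ 3 ∣ c + a) : ∃ e : ℕ, ∀ m : ℕ, m % 30 = e % 30 → ∀ p : ℕ, p.Prime → p ≤ 6 →
      ¬ p ∣ m ∧ ¬ p ∣ 1 + a * b * m ∧ ¬ p ∣ 1 + b * (a + c) * m := by
  obtain ⟨e3, he3, h31, h32, h33⟩ := res3 (a % 3) (Nat.mod_lt _ (by norm_num)) (b % 3)
    (Nat.mod_lt _ (by norm_num)) (c % 3) (Nat.mod_lt _ (by norm_num))
    ⟨by rw [← Nat.mul_mod]; exact Nat.mod_eq_zero_of_dvd h3,
    by rw [Nat.mod_mod]; omega, by rw [← Nat.add_mod]; omega⟩
  obtain ⟨e5, he5, h51, h52, h53⟩ := res5 (a % 5) (Nat.mod_lt _ (by norm_num)) (b % 5)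
    (Nat.mod_lt _ (by norm_num)) (c % 5) (Nat.mod_lt _ (by norm_num))
  obtain ⟨e, he, he2, hee3, hee5⟩ := res30 e3 he3 e5 he5
  refine ⟨e, ?_⟩
  intro m hm p hp hp6
  rcases p235 hp hp6 with rfl | rfl | rfl
  · obtain ⟨a', rfl⟩ := ha
    obtain ⟨b', rfl⟩ := hb
    have hm2 : m % 2 = 1 := by omega
    refine ⟨by omega, ?_, ?_⟩
    · have : 1 + 2 * a' * (2 * b') * m = 1 + 2 * (a' * (2 * b') * m) := by ring
      omega
    · have : 1 + 2 * b' * (2 * a' + c) * m = 1 + 2 * (b' * (2 * a' + c) * m) := by ring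
      omega
  · have hm3 : m % 3 = e3 := by omega
    refine ⟨?_, ?_, ?_⟩
    · intro h
      apply h31
      rw [← hm3, Nat.mod_mod]
      exact Nat.mod_eq_zero_of_dvd h
    · intro h
      apply h32
      rw [← hm3]
      have h0 := Nat.mod_eq_zero_of_dvd h
      rw [← h0]
      simp [Nat.add_mod, Nat.mul_mod]
    · intro h
      apply h33
      rw [← hm3]
      have h0 := Nat.mod_eq_zero_of_dvd h
      rw [← h0]
      simp [Nat.add_mod, Nat.mul_mod]
  · have hm5 : m % 5 = e5 := by omega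
    refine ⟨?_, ?_, ?_⟩
    · intro h
      apply h51
      rw [← hm5, Nat.mod_mod]
      exact Nat.mod_eq_zero_of_dvd h
    · intro h
      apply h52
      rw [← hm5]
      have h0 := Nat.mod_eq_zero_of_dvd h
      rw [← h0]
      simp [Nat.add_mod, Nat.mul_mod]
    · intro h
      apply h53
      rw [← hm5]
      have h0 := Nat.mod_eq_zero_of_dvd h
      rw [← h0]
      simp [Nat.add_mod, Nat.mul_mod]

section

open scoped Classical

/-- rough `c` and `c + a` -/
lemma exists_c (a : ℕ) (ha : 2 ∣ a) : ∃ C q0 : ℕ, ∀ q : ℕ, q0 ≤ q → ∃ c : ℕ, 2 ≤ c ∧ c ≤ q ^ C ∧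
    Rough q c ∧ Rough q (c + a) ∧ ¬ 3 ∣ c ∧ ¬ 3 ∣ c + a ∧ Nat.Coprime 30 c := by
  obtain ⟨C1, q1, hsv⟩ := main_sv 3
  obtain ⟨c0, hc0, h2, h3, h5, h2', h3', h5'⟩ := res_c (a % 30) (Nat.mod_lt _ (by norm_num))
    (by omega)
  refine ⟨C1 + 2, q1 + 60, ?_⟩
  intro q hq
  set F : Finset (ℕ × ℕ) := {(30, c0), (30, c0 + a)} with hF
  have hFcard : F.card ≤ 3 := by
    rw [hF]
    exact (Finset.card_insert_le _ _).trans (by simp)
  have hF2 : ∀ f ∈ F, ∀ p : ℕ, p.Prime → (p ≤ 2 * 3 → ∀ t : ℕ, ¬ p ∣ f.1 * t + f.2) ∧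
      (2 * 3 < p → p < q → ¬ p ∣ f.1) := by
    intro f hf p hp
    have hf' : f = (30, c0) ∨ f = (30, c0 + a) := by simpa [hF] using hf
    constructor
    · intro hp6 t hd
      rcases p235 hp hp6 with rfl | rfl | rfl <;> rcases hf' with rfl | rfl <;>
        simp only at hd <;> omega
    · intro hp6 _ hd
      have h30 : f.1 = 30 := by rcases hf' with rfl | rfl <;> rfl
      rw [h30] at hd
      have hle := Nat.le_of_dvd (by norm_num) hd
      have : p ∣ 2 * (3 * 5) := by simpa using hd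
      rcases (Nat.Prime.dvd_mul hp).1 this with h | h
      · have := Nat.le_of_dvd (by norm_num) h
        omega
      · rcases (Nat.Prime.dvd_mul hp).1 h with h | h
        · have := Nat.le_of_dvd (by norm_num) h
          omega
        · have := Nat.le_of_dvd (by norm_num) h
          omega
  have hsv1 := hsv q (by omega) F hFcard hF2 (q ^ C1) le_rfl
  have hqpos : 0 < q ^ C1 := pow_pos (by omega) _
  have hne : ((Ico (q ^ C1) (2 * q ^ C1)).filter
      (fun t => ∀ f ∈ F, Rough q (f.1 * t + f.2))).Nonempty := by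
    rw [← Finset.card_pos]
    by_contra h
    push Not at h
    have : ((Ico (q ^ C1) (2 * q ^ C1)).filter
      (fun t => ∀ f ∈ F, Rough q (f.1 * t + f.2))).card = 0 := by omega
    rw [this, mul_zero] at hsv1
    omega
  obtain ⟨t, ht⟩ := hne
  rw [Finset.mem_filter, Finset.mem_Ico] at ht
  obtain ⟨⟨ht1, ht2⟩, htF⟩ := ht
  have hr1 := htF (30, c0) (by simp [hF])
  have hr2 := htF (30, c0 + a) (by simp [hF])
  simp only at hr1 hr2
  refine ⟨30 * t + c0, by omega, ?_, hr1, ?_, by omega, by omega, ?_⟩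
  · calc 30 * t + c0 ≤ 60 * q ^ C1 + 30 := by omega
      _ ≤ 60 * q ^ C1 + 30 * q ^ C1 := by
          have : 30 * 1 ≤ 30 * q ^ C1 := Nat.mul_le_mul_left _ hqpos
          omega
      _ = 90 * q ^ C1 := by ring
      _ ≤ (q * q) * q ^ C1 := by
          refine Nat.mul_le_mul_right _ ?_
          nlinarith
      _ = q ^ (C1 + 2) := by ring
  · have : 30 * t + c0 + a = 30 * t + (c0 + a) := by ring
    rw [this]
    exact hr2
  · have h30 : (30 : ℕ) = 2 * (3 * 5) := by norm_num
    rw [h30]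
    refine Nat.Coprime.mul_left ?_ (Nat.Coprime.mul_left ?_ ?_)
    · exact (Nat.Prime.coprime_iff_not_dvd Nat.prime_two).2 (by omega)
    · exact (Nat.Prime.coprime_iff_not_dvd Nat.prime_three).2 (by omega)
    · exact (Nat.Prime.coprime_iff_not_dvd Nat.prime_five).2 (by omega)

/-- the numbers `n = A m + 1`, `A ∈ {a, b, a b}`, with `n m` rough and `λ(n) λ(m) = 1` -/
noncomputable def goodSet (a b q x : ℕ) : Finset ℕ :=
  (Icc 1 x).filter (fun n => ∃ A ∈ ({a, b, a * b} : Finset ℕ), ∃ m : ℕ, 1 ≤ m ∧ n = A * m + 1 ∧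
    Rough q n ∧ Rough q m ∧ lam n * lam m = 1)

theorem core (a b : ℕ) (ha : 2 ∣ a) (hb : 2 ∣ b) (ha1 : 1 ≤ a) (hb1 : 1 ≤ b) (h3 : 3 ∣ a * b)
    (hsm : ∀ p : ℕ, p.Prime → p ∣ a * b → p ≤ 3) : ∃ C q0 : ℕ, ∀ q : ℕ, q0 ≤ q → ∀ x : ℕ,
    q ^ C ≤ x → x ≤ q ^ C * (goodSet a b q x).card := by
  obtain ⟨C1, q1, hsv⟩ := main_sv 3
  obtain ⟨C2, q2, hc⟩ := exists_c a ha
  set C3 := 2 * C2 + 8 with hC3
  refine ⟨C1 + C3 + 2, q1 + q2 + a + b + 100, ?_⟩
  intro q hq x hx
  obtain ⟨c, hc2, hcq, hcr, hcar, hc3, hca3, hcop⟩ := hc q (by omega)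
  obtain ⟨e, he⟩ := exists_e a b c ha hb h3 hc3 hca3
  -- `ab` is invertible modulo `c`
  have hcopab : Nat.Coprime (a * b) c := by
    refine Nat.Coprime.symm (Nat.coprime_of_dvd ?_)
    intro p hp hpc hpab
    have h1 := hcr p hp hpc
    have h2 := hsm p hp hpab
    omega
  obtain ⟨r, -, hr⟩ := Nat.exists_mul_mod_eq_one_of_coprime hcopab (by omega : 1 < c)
  obtain ⟨m00, hm0e', hm0c'⟩ := Nat.chineseRemainder hcop e (r * (c - 1))
  set m0 := m00 % (30 * c) with hm0
  have h30c : 0 < 30 * c := by omega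
  have hm0lt : m0 < 30 * c := Nat.mod_lt _ h30c
  have hm0e : m0 % 30 = e % 30 := by
    rw [hm0, Nat.mod_mul_right_mod]
    exact hm0e'
  have hm0c : m0 % c = (r * (c - 1)) % c := by
    rw [hm0, Nat.mod_mul_left_mod]
    exact hm0c'
  have hdvd : c ∣ 1 + a * b * m0 := by
    have h1 : a * b * m0 ≡ c - 1 [MOD c] := by
      have h2 : a * b * m0 ≡ a * b * (r * (c - 1)) [MOD c] := Nat.ModEq.mul_left _ hm0c
      have h3 : a * b * r ≡ 1 [MOD c] := by
        unfold Nat.ModEq
        rw [hr, Nat.mod_eq_of_lt (by omega : 1 < c)]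
      have h4 : a * b * (r * (c - 1)) ≡ 1 * (c - 1) [MOD c] := by
        have := Nat.ModEq.mul_right (c - 1) h3
        rwa [mul_assoc (a * b) r (c - 1)] at this
      rw [one_mul] at h4
      exact h2.trans h4
    have h5 : 1 + a * b * m0 ≡ 1 + (c - 1) [MOD c] := Nat.ModEq.add_left 1 h1
    have h6 : 1 + (c - 1) = c := by omega
    rw [h6] at h5
    exact (Nat.modEq_zero_iff_dvd).1 (h5.trans (by unfold Nat.ModEq; simp))
  obtain ⟨l0, hl0⟩ := hdvd
  -- the three forms
  set F : Finset (ℕ × ℕ) := {(30 * c, m0), (30 * (a * b), l0), (30 * (b * (a + c)), l0 + b * m0)}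
    with hF
  have hFcard : F.card ≤ 3 := Finset.card_le_three
  obtain he6 := he m0 hm0e
  have hl0' : c * (l0 + b * m0) = 1 + b * (a + c) * m0 := by
    rw [mul_add, ← hl0]; ring
  have hF2 : ∀ f ∈ F, ∀ p : ℕ, p.Prime → (p ≤ 2 * 3 → ∀ t : ℕ, ¬ p ∣ f.1 * t + f.2) ∧
      (2 * 3 < p → p < q → ¬ p ∣ f.1) := by
    intro f hf p hp
    have hf' : f = (30 * c, m0) ∨ f = (30 * (a * b), l0) ∨
        f = (30 * (b * (a + c)), l0 + b * m0) := by
      simpa [hF] using hf
    constructor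
    · intro hp6 t hd
      obtain ⟨g1, g2, g3⟩ := he6 p hp hp6
      have hp30 : p ∣ 30 := by
        rcases p235 hp hp6 with rfl | rfl | rfl <;> norm_num
      rcases hf' with rfl | rfl | rfl
      · simp only at hd
        rw [mul_assoc] at hd
        exact g1 ((Nat.dvd_add_right (hp30.mul_right _)).1 hd)
      · simp only at hd
        rw [mul_assoc 30] at hd
        refine g2 ?_
        rw [hl0]
        exact ((Nat.dvd_add_right (hp30.mul_right _)).1 hd).mul_left _
      · simp only at hd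
        rw [mul_assoc 30] at hd
        refine g3 ?_
        rw [← hl0']
        exact ((Nat.dvd_add_right (hp30.mul_right _)).1 hd).mul_left _
    · intro hp6 hpq hd
      have hp30 : ¬ p ∣ 30 := by
        intro h
        have : p ∣ 2 * (3 * 5) := by simpa using h
        rcases (Nat.Prime.dvd_mul hp).1 this with h | h
        · have := Nat.le_of_dvd (by norm_num) h
          omega
        · rcases (Nat.Prime.dvd_mul hp).1 h with h | h
          · have := Nat.le_of_dvd (by norm_num) h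
            omega
          · have := Nat.le_of_dvd (by norm_num) h
            omega
      rcases hf' with rfl | rfl | rfl
      · simp only at hd
        rcases (Nat.Prime.dvd_mul hp).1 hd with h | h
        · exact hp30 h
        · have := hcr p hp h
          omega
      · simp only at hd
        rcases (Nat.Prime.dvd_mul hp).1 hd with h | h
        · exact hp30 h
        · have := hsm p hp h
          omega
      · simp only at hd
        rcases (Nat.Prime.dvd_mul hp).1 hd with h | h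
        · exact hp30 h
        · rcases (Nat.Prime.dvd_mul hp).1 h with h | h
          · have := hsm p hp (h.mul_left a)
            omega
          · rw [add_comm] at h
            have := hcar p hp h
            omega
  -- the parameters
  have hq1 : 1 ≤ q := by omega
  have hqC3 : 0 < q ^ C3 := pow_pos (by omega) _
  set T := x / q ^ C3 with hT
  have hT1 : q ^ C1 ≤ T := by
    rw [hT, Nat.le_div_iff_mul_le hqC3, ← pow_add]
    exact (Nat.pow_le_pow_right hq1 (by omega)).trans hx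
  have hTpos : 1 ≤ T := le_trans (Nat.one_le_pow _ _ (by omega)) hT1
  have hTx : T * q ^ C3 ≤ x := Nat.div_mul_le_self _ _
  have hxT : x < 2 * T * q ^ C3 := by
    have h1 : x < q ^ C3 * (T + 1) := Nat.lt_mul_div_succ x hqC3
    calc x < q ^ C3 * (T + 1) := h1
      _ ≤ q ^ C3 * (2 * T) := Nat.mul_le_mul_left _ (by omega)
      _ = 2 * T * q ^ C3 := by ring
  have hcount := hsv q (by omega) F hFcard hF2 T hT1
  -- the forms as functions
  set Mf : ℕ → ℕ := fun t => 30 * c * t + m0 with hMf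
  set Lf : ℕ → ℕ := fun t => 30 * (a * b) * t + l0 with hLf
  have hm0pos : 1 ≤ m0 := by
    rcases Nat.eq_zero_or_pos m0 with h | h
    · exact absurd (by rw [h]; exact dvd_zero 2) (he6 2 Nat.prime_two (by norm_num)).1
    · exact h
  have hl0pos : 1 ≤ l0 := by
    rcases Nat.eq_zero_or_pos l0 with h | h
    · rw [h, mul_zero] at hl0
      omega
    · exact h
  have hl0le : l0 ≤ 30 * (a * b) + 1 := by
    have h1 : c * l0 ≤ c * (30 * (a * b) + 1) := by
      rw [← hl0]
      have h2 : a * b * m0 ≤ a * b * (30 * c) := Nat.mul_le_mul_left _ hm0lt.le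
      calc 1 + a * b * m0 ≤ c + a * b * (30 * c) := by omega
        _ = c * (30 * (a * b) + 1) := by ring
    exact Nat.le_of_mul_le_mul_left h1 (by omega)
  have hcL : ∀ t, c * Lf t = a * b * Mf t + 1 := by
    intro t
    simp only [hMf, hLf]
    rw [mul_add, ← hl0]; ring
  have hcaL : ∀ t, (c + a) * Lf t = a * (Lf t + b * Mf t) + 1 := by
    intro t
    rw [add_mul, hcL]; ring
  have hcN : ∀ t, c * (Lf t + b * Mf t) = b * ((c + a) * Mf t) + 1 := by
    intro t
    rw [mul_add, hcL]; ring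
  -- sizes
  have hab : a * b ≤ q * q := Nat.mul_le_mul (by omega) (by omega)
  have hbq : b ≤ q := by omega
  have haq : a ≤ q := by omega
  have hab1 : 1 ≤ a * b := Nat.mul_pos ha1 hb1
  have hqC2 : q ≤ q * q ^ C2 := Nat.le_mul_of_pos_right q (pow_pos (by omega) _)
  set Q := q * q ^ C2 with hQ
  have hcQ : c + a ≤ 2 * Q := by
    have : q ^ C2 ≤ Q := Nat.le_mul_of_pos_left _ (by omega)
    omega
  have hLle : ∀ t, t < 2 * T → Lf t ≤ 91 * (q * q) * T := by
    intro t ht
    simp only [hLf]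
    calc 30 * (a * b) * t + l0 ≤ 30 * (a * b) * (2 * T) + (30 * (a * b) + 1) :=
          Nat.add_le_add (Nat.mul_le_mul_left _ ht.le) hl0le
      _ ≤ 30 * (a * b) * (2 * T) + (30 * (a * b) + a * b) := by omega
      _ = (60 * T + 31) * (a * b) := by ring
      _ ≤ (91 * T) * (q * q) := Nat.mul_le_mul (by omega) hab
      _ = 91 * (q * q) * T := by ring
  have hMle : ∀ t, t < 2 * T → Mf t ≤ 90 * Q * T := by
    intro t ht
    simp only [hMf]
    have hcQ1 : c ≤ Q := le_trans hcq (Nat.le_mul_of_pos_left _ (by omega))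
    calc 30 * c * t + m0 ≤ 30 * c * (2 * T) + 30 * c :=
          Nat.add_le_add (Nat.mul_le_mul_left _ ht.le) hm0lt.le
      _ = (60 * T + 30) * c := by ring
      _ ≤ (90 * T) * Q := Nat.mul_le_mul (by omega) hcQ1
      _ = 90 * Q * T := by ring
  have hNle : ∀ t, t < 2 * T → Lf t + b * Mf t ≤ 181 * (q * Q) * T := by
    intro t ht
    calc Lf t + b * Mf t ≤ 91 * (q * q) * T + q * (90 * Q * T) :=
          Nat.add_le_add (hLle t ht) (Nat.mul_le_mul hbq (hMle t ht))
      _ ≤ 91 * (q * Q) * T + q * (90 * Q * T) := by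
          refine Nat.add_le_add_right (Nat.mul_le_mul_right _ (Nat.mul_le_mul_left _ ?_)) _
          exact Nat.mul_le_mul_left _ hqC2
      _ = 181 * (q * Q) * T := by ring
  have hbig : ∀ y t, y ≤ 2 * Q → t < 2 * T → y * (Lf t + b * Mf t) ≤ x := by
    intro y t hy ht
    calc y * (Lf t + b * Mf t) ≤ (2 * Q) * (181 * (q * Q) * T) := Nat.mul_le_mul hy (hNle t ht)
      _ = 362 * (q * (q ^ C2 * q ^ C2) * (q * q)) * T := by rw [hQ]; ring
      _ ≤ (q * q * q) * (q * (q ^ C2 * q ^ C2) * (q * q)) * T := by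
          refine Nat.mul_le_mul_right _ (Nat.mul_le_mul_right _ ?_)
          have h100 : 100 ≤ q := by omega
          have h1 : 100 * 100 ≤ q * q := Nat.mul_le_mul h100 h100
          nlinarith
      _ = q ^ (2 * C2 + 6) * T := by ring
      _ ≤ q ^ C3 * T := Nat.mul_le_mul_right _ (Nat.pow_le_pow_right hq1 (by omega))
      _ = T * q ^ C3 := by ring
      _ ≤ x := hTx
  have hLN : ∀ t, Lf t ≤ Lf t + b * Mf t := fun t => Nat.le_add_right _ _
  have hLpos : ∀ t, 1 ≤ Lf t := fun t => by simp only [hLf]; omega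
  have hMpos : ∀ t, 1 ≤ Mf t := fun t => by simp only [hMf]; omega
  -- the good values of `t`
  set G := (Ico T (2 * T)).filter (fun t => ∀ f ∈ F, Rough q (f.1 * t + f.2)) with hG
  have hGr : ∀ t ∈ G, t < 2 * T ∧ Rough q (Mf t) ∧ Rough q (Lf t) ∧ Rough q (Lf t + b * Mf t) := by
    intro t ht
    rw [hG, Finset.mem_filter, Finset.mem_Ico] at ht
    have r1 := ht.2 (30 * c, m0) (by simp [hF])
    have r2 := ht.2 (30 * (a * b), l0) (by simp [hF])
    have r3 := ht.2 (30 * (b * (a + c)), l0 + b * m0) (by simp [hF])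
    refine ⟨ht.1.2, r1, r2, ?_⟩
    have e1 : Lf t + b * Mf t = 30 * (b * (a + c)) * t + (l0 + b * m0) := by
      simp only [hMf, hLf]; ring
    rw [e1]
    exact r3
  have hmono : StrictMono Lf := by
    intro s t hst
    simp only [hLf]
    have : 30 * (a * b) * s < 30 * (a * b) * t := Nat.mul_lt_mul_of_pos_left hst (by omega)
    omega
  have hmonoM : StrictMono Mf := by
    intro s t hst
    simp only [hMf]
    have : 30 * c * s < 30 * c * t := Nat.mul_lt_mul_of_pos_left hst (by omega)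
    omega
  have hmonoN : StrictMono (fun t => Lf t + b * Mf t) := by
    intro s t hst
    exact add_lt_add_of_lt_of_le (hmono hst) (Nat.mul_le_mul_left _ (hmonoM hst).le)
  set S := (goodSet a b q x) with hS
  set G1 := G.filter (fun t => lam (c * Lf t) * lam (Mf t) = 1) with hG1
  set G2 := G.filter (fun t => lam ((c + a) * Lf t) * lam (Lf t + b * Mf t) = 1) with hG2
  set G3 := G.filter (fun t => lam (c * (Lf t + b * Mf t)) * lam ((c + a) * Mf t) = 1) with hG3
  have hsub : G ⊆ G1 ∪ G2 ∪ G3 := by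
    intro t ht
    have h5 : Lf t + b * Mf t ≠ 0 := by have := hLpos t; omega
    have h3 : Lf t ≠ 0 := by have := hLpos t; omega
    have h4 : Mf t ≠ 0 := by have := hMpos t; omega
    rcases sign3 (c := c) (d := c + a) (L := Lf t) (M := Mf t) (N := Lf t + b * Mf t)
      (by omega) (by omega) h3 h4 h5 with h | h | h
    · exact Finset.mem_union_left _ (Finset.mem_union_left _ (Finset.mem_filter.2 ⟨ht, h⟩))
    · exact Finset.mem_union_left _ (Finset.mem_union_right _ (Finset.mem_filter.2 ⟨ht, h⟩))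
    · exact Finset.mem_union_right _ (Finset.mem_filter.2 ⟨ht, h⟩)
  have c1 : G1.card ≤ S.card := by
    refine Finset.card_le_card_of_injOn (fun t => c * Lf t) ?_ ?_
    · intro t ht
      obtain ⟨ht1, ht2⟩ := Finset.mem_filter.1 ht
      obtain ⟨g0, g1, g2, g3⟩ := hGr t ht1
      refine Finset.mem_filter.2 ⟨Finset.mem_Icc.2 ⟨Nat.mul_pos (by omega) (hLpos t), ?_⟩, ?_⟩
      · exact (Nat.mul_le_mul_left c (hLN t)).trans (hbig c t (by omega) g0)
      · exact ⟨a * b, by simp, Mf t, hMpos t, hcL t, rough_mul hcr g2, g1, ht2⟩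
    · intro s _ t _ hst
      exact hmono.injective (Nat.eq_of_mul_eq_mul_left (by omega) hst)
  have c2 : G2.card ≤ S.card := by
    refine Finset.card_le_card_of_injOn (fun t => (c + a) * Lf t) ?_ ?_
    · intro t ht
      obtain ⟨ht1, ht2⟩ := Finset.mem_filter.1 ht
      obtain ⟨g0, g1, g2, g3⟩ := hGr t ht1
      refine Finset.mem_filter.2 ⟨Finset.mem_Icc.2 ⟨Nat.mul_pos (by omega) (hLpos t), ?_⟩, ?_⟩
      · exact (Nat.mul_le_mul_left (c + a) (hLN t)).trans (hbig (c + a) t hcQ g0)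
      · exact ⟨a, by simp, Lf t + b * Mf t, by have := hLpos t; omega, hcaL t,
          rough_mul hcar g2, g3, ht2⟩
    · intro s _ t _ hst
      exact hmono.injective (Nat.eq_of_mul_eq_mul_left (by omega) hst)
  have c3 : G3.card ≤ S.card := by
    refine Finset.card_le_card_of_injOn (fun t => c * (Lf t + b * Mf t)) ?_ ?_
    · intro t ht
      obtain ⟨ht1, ht2⟩ := Finset.mem_filter.1 ht
      obtain ⟨g0, g1, g2, g3⟩ := hGr t ht1
      refine Finset.mem_filter.2 ⟨Finset.mem_Icc.2 ⟨Nat.mul_pos (by omega)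
        (by have := hLpos t; omega), ?_⟩, ?_⟩
      · exact hbig c t (by omega) g0
      · exact ⟨b, by simp, (c + a) * Mf t, Nat.mul_pos (by omega) (hMpos t), hcN t,
          rough_mul hcr g3, rough_mul hcar g1, ht2⟩
    · intro s _ t _ hst
      exact hmonoN.injective (Nat.eq_of_mul_eq_mul_left (by omega) hst)
  have hG3c : G.card ≤ 3 * S.card := by
    calc G.card ≤ (G1 ∪ G2 ∪ G3).card := Finset.card_le_card hsub
      _ ≤ (G1 ∪ G2).card + G3.card := Finset.card_union_le _ _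
      _ ≤ G1.card + G2.card + G3.card := Nat.add_le_add_right (Finset.card_union_le _ _) _
      _ ≤ 3 * S.card := by omega
  calc x ≤ 2 * T * q ^ C3 := hxT.le
    _ ≤ 2 * (q * (3 * S.card)) * q ^ C3 := by
        refine Nat.mul_le_mul_right _ (Nat.mul_le_mul_left _ ?_)
        exact hcount.trans (Nat.mul_le_mul_left _ hG3c)
    _ = 6 * (q * q ^ C3 * S.card) := by ring
    _ ≤ q * (q * q ^ C3 * S.card) := Nat.mul_le_mul_right _ (by omega)
    _ = q ^ (C3 + 2) * S.card := by ring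
    _ ≤ q ^ (C1 + C3 + 2) * S.card :=
        Nat.mul_le_mul_right _ (Nat.pow_le_pow_right hq1 (by omega))

end

end Pool.Agent.Lib.MP81c197
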